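import Pool.Agent.Q63.FT.Main

/-!
# Short Tate characters in characteristics of odd order: the theorem
-/

set_option linter.unusedSectionVars false
set_option autoImplicit false

namespace Pool.Agent.Q63.FT

open Finset Pool.Agent.H916R2 Pool.Agent.H916T Pool.Agent.H916Z Pool.Agent.H916Q Pool.Agent.H916Y

variable {m : ℕ}

/-- The sum of the translates of a multiset by the powers of `p`. -/
def tr (p f : ℕ) (s : Multiset (ZMod m)) : Multiset (ZMod m) :=
  ∑ j ∈ range f, s.map fun a => (p : ZMod m) ^ j * a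

lemma mem_tr {p f : ℕ} {s : Multiset (ZMod m)} {b : ZMod m} (h : b ∈ tr p f s) :
    ∃ j, ∃ a ∈ s, (p : ZMod m) ^ j * a = b := by
  unfold tr at h
  rw [Multiset.mem_sum] at h
  obtain ⟨j, _, h⟩ := h
  obtain ⟨a, ha, rfl⟩ := Multiset.mem_map.1 h
  exact ⟨j, a, ha, rfl⟩

lemma card_tr (p f : ℕ) (s : Multiset (ZMod m)) : Multiset.card (tr p f s) = f * Multiset.card s := by
  unfold tr
  rw [Multiset.card_sum]
  simp

open scoped Classical in
lemma countP_tr {p f : ℕ} (s : Multiset (ZMod m)) (P : ZMod m → Prop)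
    (hP : ∀ j a, P ((p : ZMod m) ^ j * a) ↔ P a) : (tr p f s).countP P = f * s.countP P := by
  unfold tr
  have h1 : ∀ n : ℕ, (∑ j ∈ range n, s.map fun a => (p : ZMod m) ^ j * a).countP P =
      n * s.countP P := by
    intro n
    induction n with
    | zero => simp
    | succ n ih =>
      rw [Finset.sum_range_succ, Multiset.countP_add, ih, add_mul, one_mul, Multiset.countP_map,
        Multiset.countP_eq_card_filter (s := s)]
      congr 2
      exact Multiset.filter_congr fun a _ => hP n a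
  exact h1 f

lemma addOrderOf_pow_mul {p : ℕ} (hpm : p.Coprime m) (j : ℕ) (a : ZMod m) :
    addOrderOf ((p : ZMod m) ^ j * a) = addOrderOf a := by
  have hu : IsUnit ((p : ZMod m) ^ j) := (H916T.isUnit_p hpm).pow j
  obtain ⟨u, hu⟩ := hu
  rw [← hu]
  apply Nat.dvd_antisymm
  · apply addOrderOf_dvd_of_nsmul_eq_zero
    rw [nsmul_eq_mul, mul_left_comm, ← nsmul_eq_mul, addOrderOf_nsmul_eq_zero, mul_zero]
  · apply addOrderOf_dvd_of_nsmul_eq_zero
    have h1 : (addOrderOf ((u : ZMod m) * a)) • ((u : ZMod m) * a) = 0 :=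
      addOrderOf_nsmul_eq_zero _
    rw [nsmul_eq_mul, mul_left_comm, ← nsmul_eq_mul] at h1
    have h2 := congrArg (fun z => ((u⁻¹ : (ZMod m)ˣ) : ZMod m) * z) h1
    simpa [← mul_assoc] using h2

lemma isHodge_tr [NeZero m] {p : ℕ} (hpm : p.Coprime m) {s : Multiset (ZMod m)}
    (hs : IsTate p m s) : IsHodge m (tr p (orderOf (p : ZMod m)) s) := by
  apply isHodge_of_saw
  · intro h
    obtain ⟨j, a, ha, h0⟩ := mem_tr h
    have hu := (H916T.isUnit_p hpm).pow j
    have h1 := (hu.mul_right_eq_zero).1 h0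
    rw [h1] at ha
    exact hs.1 ha
  · rw [card_tr]
    exact hs.2.1.mul_left _
  · intro t
    have h1 := hs.W_sum hpm t
    unfold tr
    have h2 : ∀ n : ℕ, (((∑ j ∈ range n, s.map fun a => (p : ZMod m) ^ j * a)).map
        fun a => saw ((t : ZMod m) * a)).sum =
        (s.map fun a => ∑ j ∈ range n, saw ((p : ZMod m) ^ j * ((t : ZMod m) * a))).sum := by
      intro n
      induction n with
      | zero => simp
      | succ n ih =>
        rw [Finset.sum_range_succ, Multiset.map_add, Multiset.sum_add, ih, Multiset.map_map,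
          ← Multiset.sum_map_add]
        congr 1
        refine Multiset.map_congr rfl fun a _ => ?_
        rw [Finset.sum_range_succ]
        congr 1
        exact congrArg saw (mul_left_comm _ _ _)
    rw [h2]
    exact h1

/-- **Short Tate characters in characteristics of odd order.** -/
theorem tate_of_small {p : ℕ} (hp : p.Prime) (hm : 0 < m) (hpm : p.Coprime m)
    (hf : Odd (orderOf (p : ZMod m))) (s : Multiset (ZMod m)) (hs : IsTate p m s) (hne : s ≠ 0)
    (h2 : ∀ q r : ℕ, q.Prime → r.Prime → q ≠ 2 → r ≠ 2 → q ≠ r → q ∣ m → r ∣ m →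
      4 * (orderOf (p : ZMod m) *
        (Multiset.card s + Multiset.card (s.filter fun a => addOrderOf a % 4 = 2))) <
        (q - 1) * (r - 1))
    (h4 : 4 ∣ m → ∀ q : ℕ, q.Prime → q ≠ 2 → q ∣ m →
      2 * (orderOf (p : ZMod m) * Multiset.card (s.filter fun a => 4 ∣ addOrderOf a)) < q - 1) :
    ∃ N : ℕ, 0 < N ∧ p.Coprime N ∧ ∀ M : ℕ, N * m = M →
      H916T.Generated M (ZBase p M) (s.map (iota N : ZMod m → ZMod M)) := by
  classical
  have hz : NeZero m := ⟨hm.ne'⟩
  set f := orderOf (p : ZMod m) with hfdef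
  have hf0 : 0 < f := hf.pos
  set S := tr p f s with hS
  have hSH : IsHodge m S := isHodge_tr hpm hs
  have hcard : Multiset.card S = f * Multiset.card s := card_tr p f s
  have hSne : S ≠ 0 := by
    intro h
    rw [h, Multiset.card_zero] at hcard
    have h5 : 0 < Multiset.card s := Multiset.card_pos.2 hne
    have := Nat.mul_pos hf0 h5
    omega
  have hcnt : ∀ P : ℕ → Prop, Multiset.card (S.filter fun a => P (addOrderOf a)) =
      f * Multiset.card (s.filter fun a => P (addOrderOf a)) := by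
    intro P
    rw [← Multiset.countP_eq_card_filter, ← Multiset.countP_eq_card_filter, hS]
    exact countP_tr s (fun a => P (addOrderOf a)) fun j a => by rw [addOrderOf_pow_mul hpm]
  have hgen := Pool.Agent.Q63.FQ.generated_of_small S hSH hSne (by
    intro q r hq hr hq2 hr2 hqr hqm hrm
    have h5 := h2 q r hq hr hq2 hr2 hqr hqm hrm
    have h6 := hcnt fun n => n % 4 = 2
    have h7 : Multiset.card (S.filter fun a => addOrderOf a % 4 = 2) =
      f * Multiset.card (s.filter fun a => addOrderOf a % 4 = 2) := by convert h6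
    rw [hcard, h7, ← mul_add]
    exact h5) (by
    intro h4m q hq hq2 hqm
    have h5 := h4 h4m q hq hq2 hqm
    have h6 := hcnt fun n => 4 ∣ n
    have h7 : Multiset.card (S.filter fun a => 4 ∣ addOrderOf a) =
      f * Multiset.card (s.filter fun a => 4 ∣ addOrderOf a) := by convert h6
    rw [h7]
    exact h5)
  have hQ := QE_of_generated hgen
  refine parity_main hp hm hpm hs hne fun a => ?_
  -- the predicate on the supports
  obtain ⟨P, hPdef⟩ : ∃ P : Finset ℕ → Prop, ∀ K, P K ↔
    ((∃ b : ZMod m, b ≠ 0 ∧ sp b = K ∧ Relation.EqvGen (Link p) a b) ∨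
      (2 ∈ K ∧ ∃ b : ZMod m, 2 ∣ addOrderOf b ∧ Relation.EqvGen (Link p) a b)) :=
    ⟨_, fun _ => Iff.rfl⟩
  have hne0 : ∀ b : ZMod m, 2 ∣ addOrderOf b → b ≠ 0 := by
    rintro b hb rfl
    rw [addOrderOf_zero] at hb
    omega
  have hblind : Blind P := by
    have key : ∀ K K' : Finset ℕ, 2 ∈ K → 2 ∈ K' → P K → P K' := by
      intro K K' hK hK' h
      rw [hPdef] at h ⊢
      right
      refine ⟨hK', ?_⟩
      rcases h with ⟨b, _, hbK, hb⟩ | ⟨_, b, hb2, hb⟩
      · exact ⟨b, two_mem_sp.1 (by rw [hbK]; exact hK), hb⟩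
      · exact ⟨b, hb2, hb⟩
    exact fun K K' hK hK' => ⟨key K K' hK hK', key K' K hK' hK⟩
  have hcong : ∀ b ∈ s, (Relation.EqvGen (Link p) a b ↔ P (sp b)) := by
    intro b hb
    have hb0 : b ≠ 0 := fun h => hs.1 (h ▸ hb)
    rw [hPdef]
    constructor
    · intro h
      exact Or.inl ⟨b, hb0, rfl, h⟩
    · rintro (⟨c, hc0, hcb, hc⟩ | ⟨h2b, c, hc2, hc⟩)
      · refine hc.trans _ _ _ (Relation.EqvGen.rel _ _ ⟨hc0, hb0, Or.inl hcb⟩)
      · refine hc.trans _ _ _ (Relation.EqvGen.rel _ _ ⟨hne0 c hc2, hb0, Or.inr (Or.inl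
          ⟨hc2, two_mem_sp.1 h2b⟩)⟩)
  have h5 : s.countP (fun b => Relation.EqvGen (Link p) a b) = s.countP fun b => P (sp b) := by
    rw [Multiset.countP_eq_card_filter, Multiset.countP_eq_card_filter]
    congr 1
    exact Multiset.filter_congr hcong
  have h6 := hQ P hblind
  have h7 : S.countP (fun b => P (sp b)) = f * s.countP fun b => P (sp b) := by
    rw [hS]
    exact countP_tr s (fun b => P (sp b)) fun j b => by unfold sp; rw [addOrderOf_pow_mul hpm]
  rw [h7] at h6
  have h8 : Even (s.countP fun b => P (sp b)) := by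
    rcases Nat.even_mul.1 h6 with h | h
    · exact absurd h (Nat.not_even_iff_odd.2 hf)
    · exact h
  convert h8

end Pool.Agent.Q63.FT
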