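import Pool.Agent.H916Y.Conv
import Pool.Agent.Q63.FQ.Final

/-!
# Short Tate characters in characteristics of odd order
-/

set_option linter.unusedSectionVars false
set_option autoImplicit false

namespace Pool.Agent.Q63.FT

open Finset Pool.Agent.H916R2 Pool.Agent.H916T Pool.Agent.H916Z Pool.Agent.H916Q Pool.Agent.H916Y

variable {m : ℕ}

/-- The property of the supports. -/
noncomputable def sp {m : ℕ} (a : ZMod m) : Finset ℕ := (addOrderOf a).primeFactors

/-- The even supports are not distinguished. -/
def Blind (P : Finset ℕ → Prop) : Prop := ∀ K K' : Finset ℕ, 2 ∈ K → 2 ∈ K' → (P K ↔ P K')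

open scoped Classical in
/-- Every support, the even ones together, occurs an even number of times. -/
def QE (x : Multiset (ZMod m)) : Prop :=
  ∀ P : Finset ℕ → Prop, Blind P → Even (x.countP fun a => P (sp a))

open scoped Classical in
lemma QE_of_SEven {x : Multiset (ZMod m)} (hx : SEven x) : QE x := by
  intro P _
  have h1 : x.countP (fun a => P (sp a)) =
      ∑ K ∈ (x.map sp).toFinset.filter P, x.countP (Supp K) := by
    have h2 : x.countP (fun a => P (sp a)) = Multiset.card ((x.map sp).filter P) := by
      rw [← Multiset.countP_eq_card_filter, Multiset.countP_map,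
        Multiset.countP_eq_card_filter]
    rw [h2, ← Multiset.toFinset_sum_count_eq, Multiset.toFinset_filter]
    refine Finset.sum_congr rfl fun K hK => ?_
    rw [Multiset.count_filter_of_pos (Finset.mem_filter.1 hK).2, Multiset.count,
      Multiset.countP_map, Multiset.countP_eq_card_filter]
    congr 1
    refine Multiset.filter_congr fun a _ => ?_
    exact eq_comm
  rw [h1]
  exact Finset.even_sum _ fun K _ => hx K

lemma QE.add {x y : Multiset (ZMod m)} (hx : QE x) (hy : QE y) : QE (x + y) := by
  intro P hP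
  rw [Multiset.countP_add]
  exact (hx P hP).add (hy P hP)

lemma QE_two {a b : ZMod m} (h : sp a = sp b ∨ (2 ∈ sp a ∧ 2 ∈ sp b)) :
    QE ({a, b} : Multiset (ZMod m)) := by
  classical
  intro P hP
  have h1 : P (sp a) ↔ P (sp b) := by
    rcases h with h | ⟨h1, h2⟩
    · rw [h]
    · exact hP _ _ h1 h2
  rw [Multiset.insert_eq_cons, Multiset.countP_cons, ← Multiset.cons_zero, Multiset.countP_cons,
    Multiset.countP_zero]
  by_cases h2 : P (sp a)
  · rw [if_pos h2, if_pos (h1.mp h2)]; decide
  · rw [if_neg h2, if_neg (fun h => h2 (h1.mpr h))]; decide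

lemma QE_pair (a : ZMod m) : QE ({a, -a} : Multiset (ZMod m)) :=
  QE_two (Or.inl (by unfold sp; rw [addOrderOf_neg]))

lemma two_mem_sp [NeZero m] {a : ZMod m} : 2 ∈ sp a ↔ 2 ∣ addOrderOf a := by
  unfold sp
  rw [Nat.mem_primeFactors]
  exact ⟨fun h => h.2.1, fun h => ⟨Nat.prime_two, h, (addOrderOf_pos a).ne'⟩⟩

/-- The standard characters for the prime two. -/
lemma QE_standardTwo [NeZero m] (hm : 2 ∣ m) (a : ZMod m) (ha : 2 * a ≠ 0) :
    QE ({a, a + ((m / 2 : ℕ) : ZMod m), -(2 * a), ((m / 2 : ℕ) : ZMod m)} :
      Multiset (ZMod m)) := by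
  set h : ZMod m := ((m / 2 : ℕ) : ZMod m) with hh
  have hm0 : 0 < m := NeZero.pos m
  have h2h : h + h = 0 := by
    rw [hh, ← Nat.cast_add, ← two_mul, Nat.mul_div_cancel' hm, ZMod.natCast_self]
  have hh0 : h ≠ 0 := by
    intro h0
    rw [hh, ZMod.natCast_eq_zero_iff] at h0
    have h1 := Nat.le_of_dvd (Nat.div_pos (Nat.le_of_dvd hm0 hm) two_pos) h0
    have h2 : m / 2 < m := Nat.div_lt_self hm0 (by norm_num)
    omega
  have hoh : addOrderOf h = 2 := by
    apply addOrderOf_eq_prime
    · rw [two_nsmul, h2h]
    · exact hh0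
  have hhe : 2 ∈ sp h := two_mem_sp.2 (by rw [hoh])
  -- the order of `2 a`
  have hcase : ∀ x : ZMod m, ¬ 2 ∣ addOrderOf x → sp x = sp (-(2 * x)) := by
    intro x hx
    unfold sp
    rw [addOrderOf_neg]
    have h3 : (2 : ZMod m) * x = 2 • x := by rw [two_nsmul, two_mul]
    rw [h3, addOrderOf_nsmul' x two_ne_zero]
    have h4 : Nat.gcd (addOrderOf x) 2 = 1 :=
      Nat.coprime_comm.1 ((Nat.prime_two.coprime_iff_not_dvd).2 hx)
    rw [h4, Nat.div_one]
  have hswap : ∀ x : ZMod m, 2 ∣ addOrderOf x → 2 ∣ addOrderOf (x + h) ∨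
      ¬ 2 ∣ addOrderOf (x + h) := fun x _ => em _
  have hdbl : 2 * (a + h) = 2 * a := by
    rw [mul_add, two_mul h, h2h, add_zero]
  have e1 : ({a, a + h, -(2 * a), h} : Multiset (ZMod m)) = {a, -(2 * a)} + {a + h, h} := by
    simp only [Multiset.insert_eq_cons, ← Multiset.singleton_add]
    abel
  have e2 : ({a, a + h, -(2 * a), h} : Multiset (ZMod m)) = {a + h, -(2 * a)} + {a, h} := by
    simp only [Multiset.insert_eq_cons, ← Multiset.singleton_add]
    abel
  by_cases ho : 2 ∣ addOrderOf a
  · by_cases ho' : 2 ∣ addOrderOf (a + h)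
    · -- all are even
      have h5 : 2 ∣ addOrderOf (-(2 * a)) := by
        by_contra hcon
        -- `2 a` has odd order, so `a = b + ε h`
        rw [addOrderOf_neg] at hcon
        obtain ⟨n, hn⟩ : ∃ n, addOrderOf (2 * a) = n := ⟨_, rfl⟩
        rw [hn] at hcon
        have hna : n • (2 * a) = 0 := by rw [← hn]; exact addOrderOf_nsmul_eq_zero _
        have h6 : (n • a) + (n • a) = 0 := by
          have : n • (2 * a) = n • a + n • a := by rw [two_mul, nsmul_add]
          rw [← this, hna]
        -- so `n • a` is `0` or `h`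
        have h7 : n • a = 0 ∨ n • a = h := by
          have h8 : ((2 * (n • a).val : ℕ) : ZMod m) = 0 := by
            push_cast
            rw [ZMod.natCast_zmod_val, two_mul, h6]
          rw [ZMod.natCast_eq_zero_iff] at h8
          obtain ⟨c, hc⟩ := h8
          have h9 := ZMod.val_lt (n • a)
          have hc2 : c < 2 := by
            by_contra hc2
            have : m * 2 ≤ m * c := Nat.mul_le_mul_left m (by omega)
            omega
          interval_cases c
          · left
            rw [← ZMod.val_eq_zero]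
            omega
          · right
            rw [hh, ← ZMod.natCast_zmod_val (n • a)]
            congr 1
            omega
        rcases h7 with h7 | h7
        · have h8 := addOrderOf_dvd_of_nsmul_eq_zero h7
          exact hcon (ho.trans h8)
        · have h8 : n • (a + h) = 0 := by
            rw [nsmul_add, h7]
            obtain ⟨r, hr⟩ : Odd n := by
              rw [← Nat.not_even_iff_odd, even_iff_two_dvd]; exact hcon
            have h9 : (2 * r + 1) • h = h := by
              rw [add_nsmul, one_nsmul, mul_nsmul, two_nsmul, h2h, nsmul_zero, zero_add]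
            rw [hr, h9, h2h]
          exact hcon (ho'.trans (addOrderOf_dvd_of_nsmul_eq_zero h8))
      rw [e1]
      exact (QE_two (Or.inr ⟨two_mem_sp.2 ho, two_mem_sp.2 h5⟩)).add
        (QE_two (Or.inr ⟨two_mem_sp.2 ho', hhe⟩))
    · rw [e2]
      refine (QE_two (Or.inl ?_)).add (QE_two (Or.inr ⟨two_mem_sp.2 ho, hhe⟩))
      rw [hcase _ ho', hdbl]
  · have ho' : 2 ∣ addOrderOf (a + h) := by
      by_contra hcon
      have h5 : (addOrderOf a * addOrderOf (a + h)) • h = 0 := by
        have h6 : (addOrderOf a * addOrderOf (a + h)) • a = 0 := by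
          rw [mul_nsmul, addOrderOf_nsmul_eq_zero, nsmul_zero]
        have h7 : (addOrderOf a * addOrderOf (a + h)) • (a + h) = 0 := by
          rw [mul_nsmul', addOrderOf_nsmul_eq_zero, nsmul_zero]
        rw [nsmul_add, h6, zero_add] at h7
        exact h7
      have h6 := addOrderOf_dvd_of_nsmul_eq_zero h5
      rw [hoh] at h6
      rcases (Nat.prime_two.dvd_mul).1 h6 with h7 | h7
      · exact ho h7
      · exact hcon h7
    rw [e1]
    refine (QE_two (Or.inl (hcase a ho))).add (QE_two (Or.inr ⟨two_mem_sp.2 ho', hhe⟩))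

/-- The generated multisets satisfy the parity property. -/
theorem QE_of_generated [NeZero m] {x : Multiset (ZMod m)}
    (hx : H916R2.Generated m (fun _ => False) x) : QE x := by
  induction hx with
  | ofBase s hs => exact hs.elim
  | pair a ha => exact QE_pair a
  | standard q hq hq2 hqm a ha =>
    exact QE_of_SEven (sEven_standard hq hqm ⟨hq.odd_of_ne_two hq2, a, ha, rfl⟩)
  | standardTwo hm a ha => exact QE_standardTwo hm a ha
  | join s t _ _ hs ht => exact hs.add ht
  | cancel a s _ ih =>
    intro P hP
    have h1 := ih P hP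
    have h2 := QE_pair a P hP
    have h3 : (a ::ₘ -a ::ₘ s) = ({a, -a} : Multiset (ZMod m)) + s := by
      rw [Multiset.insert_eq_cons, Multiset.cons_add, Multiset.singleton_add]
    rw [h3, Multiset.countP_add] at h1
    exact (Nat.even_add.1 h1).1 h2

end Pool.Agent.Q63.FT
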